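import Pool.Agent.Helper87.CA.Goals

/-!
# Project CA (MP_c5396e_co), packet ITER: iteration of the recursion
-/

set_option autoImplicit false

namespace Pool.Agent.Helper56.CA

open Pool.Agent.Helper87.CA

theorem Bd_mono {n : ℕ} {k M M' : ℝ} (h : Bd n k M) (hM : M ≤ M') : Bd n k M' :=
  fun F h1 h2 => (h F h1 h2).trans hM

theorem pow_floor_le {n : ℕ} (hn : 2 ≤ n) {x : ℝ} (hx : 0 ≤ x) :
    ((n : ℝ) ^ 2 + 1) ^ ⌊x⌋₊ ≤ Real.exp (3 * Real.log n * x) := by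
  have hn' : (2 : ℝ) ≤ n := by exact_mod_cast hn
  have hn0 : (0 : ℝ) < n := by linarith
  have hL : 0 ≤ Real.log n := Real.log_nonneg (by linarith)
  have h1 : (n : ℝ) ^ 2 + 1 ≤ Real.exp (3 * Real.log n) := by
    have : Real.exp (3 * Real.log n) = (n : ℝ) ^ 3 := by
      rw [show 3 * Real.log n = Real.log ((n : ℝ) ^ 3) by rw [Real.log_pow]; norm_num,
        Real.exp_log (by positivity)]
    rw [this]
    nlinarith [sq_nonneg ((n : ℝ) - 2)]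
  calc ((n : ℝ) ^ 2 + 1) ^ ⌊x⌋₊ ≤ (Real.exp (3 * Real.log n)) ^ ⌊x⌋₊ :=
        pow_le_pow_left₀ (by positivity) h1 _
    _ = Real.exp (⌊x⌋₊ * (3 * Real.log n)) := (Real.exp_nat_mul _ _).symm
    _ ≤ Real.exp (3 * Real.log n * x) := by
        refine Real.exp_le_exp.2 ?_
        rw [mul_comm]
        exact mul_le_mul_of_nonneg_left (Nat.floor_le hx) (by positivity)

theorem lev_spec (n : ℕ) : (n : ℝ) ^ (1 / 5 : ℝ) ≤ 2 ^ lev n := by
  unfold lev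
  exact Nat.find_spec (p := fun I => (n : ℝ) ^ (1 / 5 : ℝ) ≤ 2 ^ I) _

theorem lev_lt {n J : ℕ} (h : J < lev n) : (2 : ℝ) ^ J < (n : ℝ) ^ (1 / 5 : ℝ) := by
  unfold lev at h
  exact not_le.1 (Nat.find_min (p := fun I => (n : ℝ) ^ (1 / 5 : ℝ) ≤ 2 ^ I) _ h)

theorem lev_le {n : ℕ} (hn : 1 ≤ n) : (lev n : ℝ) ≤ 2 * (n : ℝ) ^ (4 / 5 : ℝ) := by
  have hn' : (1 : ℝ) ≤ n := by exact_mod_cast hn
  have h1 : (n : ℝ) ^ (1 / 5 : ℝ) ≤ (n : ℝ) ^ (4 / 5 : ℝ) :=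
    Real.rpow_le_rpow_of_exponent_le hn' (by norm_num)
  have h2 : 1 ≤ (n : ℝ) ^ (4 / 5 : ℝ) := Real.one_le_rpow hn' (by norm_num)
  rcases Nat.eq_zero_or_pos (lev n) with h | h
  · rw [h]
    push_cast
    linarith
  · obtain ⟨J, hJ⟩ := Nat.exists_eq_add_of_lt h
    rw [zero_add] at hJ
    have h3 := lev_lt (n := n) (J := J) (by omega)
    have h4 : (J : ℝ) < 2 ^ J := by exact_mod_cast Nat.lt_two_pow_self
    rw [hJ]
    push_cast
    linarith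

theorem gITER : Pool.Agent.Helper87.CA.G_ITER := by
  intro hRec hStep hTriv
  obtain ⟨n0, hn0⟩ := hStep
  refine ⟨max n0 5, fun n hn => ?_⟩
  have hnn0 : n0 ≤ n := le_trans (le_max_left _ _) hn
  have hn5 : 5 ≤ n := le_trans (le_max_right _ _) hn
  have hn5' : (5 : ℝ) ≤ n := by exact_mod_cast hn5
  have hnpos : (0 : ℝ) < n := by linarith
  have hL1 : 1 ≤ Real.log n := by
    rw [Real.le_log_iff_exp_le hnpos]
    linarith [Real.exp_one_lt_d9]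
  set L := Real.log n with hL
  set p0 : ℝ := (2 * 10 ^ 10 * L / n) ^ (1 / 5 : ℝ) with hp0
  have hp0pos : 0 ≤ p0 := Real.rpow_nonneg (by positivity) _
  set I := lev n with hI
  -- the induction
  have key : ∀ j : ℕ, j ≤ I → Bd n (n / 2 ^ (I - j))
      (Real.exp (j + 3 * L * (12 * p0 * n * (2 / 3) ^ (I - j) + n / 2 ^ I))) := by
    intro j
    induction j with
    | zero =>
      intro _
      refine Bd_mono (hTriv n _ (by positivity)) ?_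
      refine (pow_floor_le (by omega) (by positivity)).trans (Real.exp_le_exp.2 ?_)
      have h1 : 0 ≤ 3 * L * (12 * p0 * n * (2 / 3) ^ (I - 0)) := by positivity
      rw [Nat.sub_zero] at h1 ⊢
      push_cast
      linarith
    | succ j ih =>
      intro hj
      have ih' := ih (by omega)
      set i := I - (j + 1) with hi
      have hij : I - j = i + 1 := by omega
      rw [hij] at ih'
      have hiI : i < lev n := by rw [← hI]; omega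
      obtain ⟨c1, c2, c3, c4, c5, c6⟩ := hn0 n hnn0 i hiI (p0 * (4 / 3) ^ i) (n / 2 ^ i)
        ⌊p0 * (4 / 3) ^ i * ((n : ℝ) / 2 ^ i) / 1600⌋₊ rfl rfl rfl
      have hk : (0 : ℝ) < (n : ℝ) / 2 ^ i := by positivity
      have hkk : (n : ℝ) / 2 ^ (i + 1) = (n : ℝ) / 2 ^ i / 2 := by
        rw [pow_succ]
        field_simp
      rw [hkk] at ih'
      have hp3 : 0 < (p0 * (4 / 3) ^ i) ^ 3 := by positivity
      have h1 := hRec n _ (p0 * (4 / 3) ^ i) (52 * Real.log n / (p0 * (4 / 3) ^ i) ^ 3)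
        (n / 2 ^ i) (n / 2 ^ i / 2) _ hn5 c3 c4 c1 c2 hk (by positivity)
        (by rw [mul_div_cancel₀ _ hp3.ne']) c5 c6 ih'
      refine Bd_mono h1 ?_
      have hx : 0 ≤ 4 * (p0 * (4 / 3) ^ i) * ((n : ℝ) / 2 ^ i) := by positivity
      have h2 := pow_floor_le (n := n) (by omega) hx
      have h3 : (2 : ℝ) ≤ Real.exp 1 := by
        have := Real.add_one_le_exp (1 : ℝ)
        linarith
      have h4 : 4 * (p0 * (4 / 3) ^ i) * ((n : ℝ) / 2 ^ i) = 4 * p0 * n * (2 / 3) ^ i := by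
        have : (2 / 3 : ℝ) ^ i = (4 / 3) ^ i / 2 ^ i := by
          rw [← div_pow]
          norm_num
        rw [this]
        field_simp
      calc 2 * ((n : ℝ) ^ 2 + 1) ^ ⌊4 * (p0 * (4 / 3) ^ i) * ((n : ℝ) / 2 ^ i)⌋₊ *
            Real.exp (j + 3 * L * (12 * p0 * n * (2 / 3) ^ (i + 1) + n / 2 ^ I))
          ≤ Real.exp 1 * Real.exp (3 * L * (4 * (p0 * (4 / 3) ^ i) * ((n : ℝ) / 2 ^ i))) *
            Real.exp (j + 3 * L * (12 * p0 * n * (2 / 3) ^ (i + 1) + n / 2 ^ I)) := by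
            gcongr
        _ = Real.exp ((j + 1 : ℕ) + 3 * L * (12 * p0 * n * (2 / 3) ^ i + n / 2 ^ I)) := by
            rw [← Real.exp_add, ← Real.exp_add, h4]
            congr 1
            rw [pow_succ]
            push_cast
            ring
  have h0 := key I le_rfl
  rw [Nat.sub_self, pow_zero, pow_zero, div_one, mul_one] at h0
  refine Bd_mono h0 (Real.exp_le_exp.2 ?_)
  -- numerical estimate
  have hN : 0 < (n : ℝ) ^ (4 / 5 : ℝ) := Real.rpow_pos_of_pos hnpos _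
  have e1 : (I : ℝ) ≤ 2 * (n : ℝ) ^ (4 / 5 : ℝ) := lev_le (by omega)
  have e2 : (n : ℝ) / 2 ^ I ≤ (n : ℝ) ^ (4 / 5 : ℝ) := by
    rw [div_le_iff₀ (by positivity)]
    have h1 := lev_spec n
    calc (n : ℝ) = (n : ℝ) ^ (4 / 5 : ℝ) * (n : ℝ) ^ (1 / 5 : ℝ) := by
          rw [← Real.rpow_add hnpos]
          norm_num
      _ ≤ (n : ℝ) ^ (4 / 5 : ℝ) * 2 ^ I := mul_le_mul_of_nonneg_left h1 hN.le
  have e3 : p0 * n ≤ 115 * L ^ (1 / 5 : ℝ) * (n : ℝ) ^ (4 / 5 : ℝ) := by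
    have hL0 : 0 ≤ L := by linarith
    have h1 : p0 = (2 * 10 ^ 10 : ℝ) ^ (1 / 5 : ℝ) * L ^ (1 / 5 : ℝ) / (n : ℝ) ^ (1 / 5 : ℝ) := by
      rw [hp0, Real.div_rpow (by positivity) hnpos.le, Real.mul_rpow (by norm_num) hL0]
    have h2 : (2 * 10 ^ 10 : ℝ) ^ (1 / 5 : ℝ) ≤ 115 := by
      calc (2 * 10 ^ 10 : ℝ) ^ (1 / 5 : ℝ) ≤ ((115 : ℝ) ^ (5 : ℝ)) ^ (1 / 5 : ℝ) := by
            refine Real.rpow_le_rpow (by norm_num) ?_ (by norm_num)
            rw [show (5 : ℝ) = ((5 : ℕ) : ℝ) by norm_num, Real.rpow_natCast]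
            norm_num
        _ = 115 := by
            rw [← Real.rpow_mul (by norm_num)]
            norm_num
    have h3 : (n : ℝ) = (n : ℝ) ^ (4 / 5 : ℝ) * (n : ℝ) ^ (1 / 5 : ℝ) := by
      rw [← Real.rpow_add hnpos]
      norm_num
    have hn15 : 0 < (n : ℝ) ^ (1 / 5 : ℝ) := Real.rpow_pos_of_pos hnpos _
    have hL15 : 0 ≤ L ^ (1 / 5 : ℝ) := Real.rpow_nonneg hL0 _
    calc p0 * n = (2 * 10 ^ 10 : ℝ) ^ (1 / 5 : ℝ) * L ^ (1 / 5 : ℝ) / (n : ℝ) ^ (1 / 5 : ℝ) *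
          ((n : ℝ) ^ (4 / 5 : ℝ) * (n : ℝ) ^ (1 / 5 : ℝ)) := by rw [← h1, ← h3]
      _ = (2 * 10 ^ 10 : ℝ) ^ (1 / 5 : ℝ) * L ^ (1 / 5 : ℝ) * (n : ℝ) ^ (4 / 5 : ℝ) := by
          field_simp
      _ ≤ 115 * L ^ (1 / 5 : ℝ) * (n : ℝ) ^ (4 / 5 : ℝ) := by gcongr
  have e4 : L * L ^ (1 / 5 : ℝ) = L ^ (6 / 5 : ℝ) := by
    have : L ^ (6 / 5 : ℝ) = L ^ ((1 : ℝ) + 1 / 5) := by norm_num
    rw [this, Real.rpow_add (by linarith), Real.rpow_one]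
  have e5 : L ≤ L ^ (6 / 5 : ℝ) := by
    calc L = L ^ (1 : ℝ) := (Real.rpow_one L).symm
      _ ≤ L ^ (6 / 5 : ℝ) := Real.rpow_le_rpow_of_exponent_le hL1 (by norm_num)
  have e6 : 3 * L * (12 * p0 * n + n / 2 ^ I) ≤
      3 * L * (12 * (115 * L ^ (1 / 5 : ℝ) * (n : ℝ) ^ (4 / 5 : ℝ)) + (n : ℝ) ^ (4 / 5 : ℝ)) := by
    refine mul_le_mul_of_nonneg_left ?_ (by linarith)
    linarith
  calc (I : ℝ) + 3 * L * (12 * p0 * n + n / 2 ^ I)
      ≤ 2 * (n : ℝ) ^ (4 / 5 : ℝ) + 3 * L * (12 * (115 * L ^ (1 / 5 : ℝ) *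
        (n : ℝ) ^ (4 / 5 : ℝ)) + (n : ℝ) ^ (4 / 5 : ℝ)) := add_le_add e1 e6
    _ = (n : ℝ) ^ (4 / 5 : ℝ) * (2 + 4140 * (L * L ^ (1 / 5 : ℝ)) + 3 * L) := by ring
    _ ≤ (n : ℝ) ^ (4 / 5 : ℝ) * (5000 * L ^ (6 / 5 : ℝ)) := by
        refine mul_le_mul_of_nonneg_left ?_ hN.le
        rw [e4]
        linarith
    _ = 5000 * ((n : ℝ) ^ (4 / 5 : ℝ) * L ^ (6 / 5 : ℝ)) := by ring

end Pool.Agent.Helper56.CA
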